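import Pool.Agent.Helper95.BG.Goals

/-!
# Boolean grammars: the universal function is correct
-/

namespace Pool.Agent.Helper54.BG.PkCOD

open Pool.Agent.Helper65.LinSpace Pool.Agent.Helper78 Pool.Agent.Helper78.Mpc
  Pool.Agent.Helper78.Xor Finset Filter Pool.Agent.Helper95.BG

theorem btN_lt (q BT x y : ℕ) : btN q BT x y < 2 ^ q := dig_lt (by positivity) _ _

theorem psN_lt (q PS x : ℕ) : psN q PS x < 2 ^ q := dig_lt (by positivity) _ _

theorem ltL_lt (q nT Bg MC LT IT Λ β x z i : ℕ) : ltL q nT Bg MC LT IT Λ β x z i < 2 ^ q := by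
  unfold ltL ifz
  split_ifs
  · exact Nat.mod_lt _ (by positivity)
  · exact dig_lt (by positivity) _ _

theorem good (q BT PS nT Bg MC LT IT Λ β x z : ℕ) :
    Good q (ltL q nT Bg MC LT IT Λ β x z) (btN q BT) (psN q PS) :=
  ⟨fun _ => ltL_lt _ _ _ _ _ _ _ _ _ _ _, fun _ _ => btN_lt _ _ _ _, fun _ => psN_lt _ _ _⟩

theorem UG_ne_zero_iff (c e a : ℕ) (w : List Bool) :
    UG c e a (num w) ≠ 0 ↔ ∃ v : List Bool, v.length ≤ c * w.length ∧
      accG e (num w) (Avg.catN a (num v)) ≠ 0 := by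
  unfold UG
  rw [Ne, sum_eq_zero_iff, Avg.log_num]
  push Not
  constructor
  · rintro ⟨y, hy, hne⟩
    rw [mem_range] at hy
    have h1 : y ≠ 0 := by
      rintro rfl
      exact hne (by simp [lt01])
    obtain ⟨v, rfl⟩ := Avg.exists_num (Nat.pos_of_ne_zero h1)
    refine ⟨v, ?_, fun h => hne (by rw [h, mul_zero])⟩
    have h2 := Avg.pow_le_num v
    have h3 := (Nat.pow_lt_pow_iff_right (a := 2) (by norm_num)).1 (lt_of_le_of_lt h2 hy)
    omega
  · rintro ⟨v, hv, hne⟩
    refine ⟨num v, ?_, ?_⟩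
    · rw [mem_range]
      exact lt_of_lt_of_le (Avg.num_lt v) (Nat.pow_le_pow_right (by norm_num) (by omega))
    · have h1 : lt01 0 (num v) = 1 := if_pos (Avg.num_pos v)
      rwa [h1, one_mul]

theorem thm (tree : G_TREE) (let_ : G_LET) (map_ : G_MAP) (su : G_SU) (wf : G_WF) (code : G_CODE)
    (asy : G_ASY) : G_COD := by
  intro T _ G K hG ι f C ε c hε hf hlen
  have hK : LocalSys K := by
    rcases hG with hG | hG
    · exact su T G K hG
    · rw [hG]
      exact wf T G
  obtain ⟨q, BT, PS, AC, τ, hτ, hcode⟩ := code T K hK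
  obtain ⟨nT, Bg, MC, n₁, idx, hD⟩ := let_ T f C ε (c + 1) hε hf
  obtain ⟨LT, IT, hmap⟩ := map_ T f ι (c + 1) nT Bg MC n₁ idx q τ hD hτ
  obtain ⟨n₂, hn₂⟩ := eventually_atTop.1 (asy.1 q)
  obtain ⟨n₃, hn₃⟩ := eventually_atTop.1 (asy.2.2 C ε (c + 3) hε)
  refine ⟨encL [q, BT, PS, nT, Bg, MC, LT, IT, AC, 0], n₁ + n₂ + n₃ + 1, fun w α hw hα => ?_⟩
  rw [UG_ne_zero_iff]
  refine exists_congr fun v => and_congr_right fun hv => ?_
  rw [← Avg.num_append]
  obtain ⟨h1, h2, h3, h4, -⟩ := hn₂ w.length (by omega)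
  have hyl : (α ++ v).length ≤ (c + 1) * w.length := by
    rw [List.length_append, Nat.succ_mul]
    omega
  have h5 : (w.length : ℝ) + C * (((w.length + (α ++ v).length : ℕ) : ℝ) + 1) ^ (3 / 2 - ε) ≤
      mS w.length := by
    refine hn₃ w.length (by omega) (w.length + (α ++ v).length) ?_
    have e1 : (c + 3) * (w.length + 1) = (c + 1) * w.length + 2 * w.length + (c + 3) := by ring
    omega
  have h6 : w.length + (f w (α ++ v)).length ≤ mS w.length := by
    have h7 := hlen w (α ++ v)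
    push_cast at h5
    have h8 : ((w.length + (f w (α ++ v)).length : ℕ) : ℝ) ≤ (mS w.length : ℕ) := by
      push_cast
      linarith
    exact_mod_cast h8
  obtain ⟨hm, hl⟩ := hmap w (α ++ v) (by omega) hyl h6
  have hne : w.map ι ++ f w (α ++ v) ≠ [] := by
    intro h
    have h7 := congrArg List.length h
    rw [List.length_append, List.length_map, List.length_nil] at h7
    omega
  have hpos : (w.map ι ++ f w (α ++ v)).length ≠ 0 := by
    intro h
    exact hne (List.length_eq_zero_iff.1 h)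
  have hle : (w.map ι ++ f w (α ++ v)).length ≤ mS w.length := by
    rw [List.length_append, List.length_map]
    exact h6
  have hdiv : (w.map ι ++ f w (α ++ v)).length / bS w.length < 2 ^ ll w.length :=
    lt_of_le_of_lt (Nat.div_le_div_right hle) h4
  rw [hcode _ (ltL q nT Bg MC LT IT (LW w.length) (2 ^ (2 * ll w.length)) (num w)
    (num (α ++ v))) hne hl]
  have hval : accG (encL [q, BT, PS, nT, Bg, MC, LT, IT, AC, 0]) (num w) (num (α ++ v)) =
      dig 2 AC (V q (ltL q nT Bg MC LT IT (LW w.length) (2 ^ (2 * ll w.length)) (num w)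
        (num (α ++ v))) (btN q BT) (psN q PS) 0 (w.map ι ++ f w (α ++ v)).length) := by
    unfold accG valG
    simp only [encL, cp, Nat.unpair_pair]
    rw [Avg.log_num, hm, min_eq_left h1]
    unfold ifz
    rw [if_neg hpos, tree q _ _ _ _ _ _ h2 (good _ _ _ _ _ _ _ _ _ _ _ _) hdiv]
  rw [hval]

end Pool.Agent.Helper54.BG.PkCOD
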